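import Pool.Agent.helper91.HZF.Spec

/-!
# MP_069684_lc, row hzf:FPT: every circuit has a version without `k`-bit hazards of size `(s+1) (n+2)^c (k+2)^(c k)`
-/

set_option autoImplicit false

namespace Pool.Agent.HZF

open Finset Pool.Agent.helper38.Neg Pool.Agent.helper55.NT Pool.Agent.LN

theorem FPT (h1 : ASM_stmt) (h2 : TTB_stmt) : FPT_stmt := by
  obtain ⟨c, hc⟩ := h2
  refine ⟨c, fun n s k C o => ?_⟩
  obtain ⟨s', hs', C', o', h3, h4⟩ := h1 n s k C o
  exact ⟨s', le_trans hs' (hc n s k), C', o', h3, h4⟩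

end Pool.Agent.HZF
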